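import Pool.Agent.H26.K4.Tower
import Pool.Agent.H26.Lib.R_pool_sql_team_seeded_3997aac3.Q5.RY.Rigid

/-! **A finite list of number fields**, without automorphisms and with at most one small prime, decides
the conjecture over `K`, uniformly in the variety and in the cohomology theories. -/

set_option autoImplicit false
set_option linter.unusedSectionVars false

namespace Pool.Agent.H26.K4

open NumberField Module IsDedekindDomain Polynomial Pool.Agent.W353.NF Pool.Agent.W401.Cheb
  Pool.Agent.Q5.BR Pool.Agent.Q5.VL Pool.Agent.Q5.RG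
open Pool.Agent.Q5.RF (Rigid)

theorem finite_list (K : Type) [Field K] [NumberField K] (X₀ : ℕ) :
    ∃ (ι : Type) (_ : Fintype ι) (Y : ι → Ext K) (a : ι → ℤ), (∀ j, Rigid (Y j).F) ∧
      (∀ j, AtMost X₀ (Y j).F) ∧ (∀ σ : GK K, ∑ j, a j * (fixn K (Y j).F σ : ℤ) = 1) ∧
      ∀ (n : ℕ) (X : Set (MvPolynomial (Fin n) (𝓞 K))) (d i N : ℕ) (_ : i ≤ 2 * d) (m : ℤ)
        (Ω : Set ℂ) (_ : IsDom Ω (m : ℂ))
        (_ : ∀ (F : Type) [Field F] [NumberField F] [Algebra K F], ∃ B, Sys X d i N m F B)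
        (M : Datum ℚ ℝ (GK K)) (_ : GoodM M),
        (∀ j, ConjQ X d i N m M Ω (Y j).F) → ConjQ X d i N m M Ω K := by
  classical
  obtain ⟨ι, _, Y, a, h1, h2, h3⟩ := rigid_small_relation K X₀
  obtain ⟨N', hfd, hnor, hN'⟩ := exists_N (K := K) (fun o : Option ι => match o with
    | none => Ext.mk K
    | some j => Y j)
  have hnf : NumberField N' := NumberField.of_module_finite K N'
  obtain ⟨Z, hZr, hZs⟩ := exists_rigid_small_above N' X₀
  let _ : Algebra K Z.F := ((algebraMap N' Z.F).comp (algebraMap K N')).toAlgebra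
  have htow : IsScalarTower K N' Z.F := IsScalarTower.of_algebraMap_eq fun x => rfl
  let Y' : Option ι → Ext K := fun o => o.elim (Ext.mk Z.F) Y
  refine ⟨Option ι, inferInstance, Y', fun o => o.elim 0 a, ?_, ?_, ?_, ?_⟩
  · rintro (_ | j)
    · exact hZr
    · exact h1 j
  · rintro (_ | j)
    · exact hZs
    · exact h2 j
  · intro σ
    rw [Fintype.sum_option, ← h3 σ]
    change (0 : ℤ) * _ + _ = _
    rw [zero_mul, zero_add]
    rfl
  · intro n X d i N hi m Ω hΩ hsys M hM h
    have hZ : ConjQ X d i N m M Ω Z.F := h none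
    have hY : ∀ j, ConjQ X d i N m M Ω (Y j).F := fun j => h (some j)
    have hreg : ∃ c, Reg M N' c := Pool.Agent.Q5.RY.reg_sub_any hM (F' := Z.F) hZ.1
    have hregK : ∃ c, Reg M K c := Pool.Agent.Q5.RY.reg_sub_any hM (F' := N') hreg
    obtain ⟨c₀, hc₀⟩ := hreg
    refine ⟨hregK, fun B hB => ?_⟩
    have key : PowL m M Ω K B (1 * 1) := powL_step hi hΩ hM hsys K (ι := ι) (Y := Y) h3
      (N' := N') (hN' none) (fun j => hN' (some j)) hc₀ (fun j => (hY j).2) B hB
    rwa [one_mul] at key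

end Pool.Agent.H26.K4
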