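import Pool.Agent.H26.K4.RigidSmall
import Pool.Agent.H46.SP.Main

/-! **The fields without automorphisms and with at most one small prime suffice** for every property
compatible with relations. -/

set_option autoImplicit false
set_option linter.unusedSectionVars false

namespace Pool.Agent.H26.K4

open NumberField Module IsDedekindDomain Pool.Agent.W353.NF Pool.Agent.W401.Cheb
  Pool.Agent.Q5.BR
open Pool.Agent.Q5.RF (Rigid)
open Pool.Agent.Q5.VL (IsLaw)

section
variable {K L : Type} [Field K] [NumberField K] [Field L] [NumberField L] [Algebra K L] [IsGalois K L]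

/-- the embeddings in the algebraic closure and the embeddings in a Galois extension -/
theorem fixn_eq_emb (σ : GK K) : ∃ g : Gal(L/K), ∀ F : IntermediateField K L,
    fixn K F σ = Pool.Agent.R433.MD.emb F g := by
  classical
  have hfd : FiniteDimensional K L := by
    have : IsScalarTower ℚ K L := inferInstance
    exact FiniteDimensional.right ℚ K L
  let ι : L →ₐ[K] AlgebraicClosure K := IsAlgClosed.lift
  let _ : Algebra L (AlgebraicClosure K) := ι.toRingHom.toAlgebra
  have htower : IsScalarTower K L (AlgebraicClosure K) :=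
    IsScalarTower.of_algebraMap_eq fun x => (ι.commutes x).symm
  let g : Gal(L/K) := (σ : AlgebraicClosure K ≃ₐ[K] AlgebraicClosure K).restrictNormal L
  have hg : ∀ x : L, ι (g x) = σ (ι x) := fun x =>
    AlgEquiv.restrictNormal_commutes (σ : AlgebraicClosure K ≃ₐ[K] AlgebraicClosure K) L x
  have hι : Function.Injective ι := ι.injective
  refine ⟨g, fun F => ?_⟩
  have hfdF : FiniteDimensional K F := inferInstance
  unfold fixn Pool.Agent.R433.MD.emb
  symm
  refine Nat.card_congr (Equiv.ofBijective (fun τ => ⟨ι.comp τ.1, ?_⟩) ⟨?_, ?_⟩)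
  · rw [act_apply]
    apply AlgHom.ext
    intro x
    change σ (ι (τ.1 x)) = ι (τ.1 x)
    rw [← hg, τ.2 x]
  · intro τ τ' h
    apply Subtype.ext
    apply AlgHom.ext
    intro x
    have h1 := congrArg (fun z => z.1 x) h
    exact hι h1
  · rintro ⟨i, hi⟩
    -- the image of `i` lies in the image of `L`
    have hmem : ∀ x : F, ∃ y : L, ι y = i x := by
      intro x
      have h1 : (Polynomial.aeval (i x)) (minpoly K (x : L)) = 0 := by
        have h2 : minpoly K (x : L) = minpoly K x :=
          (minpoly.algebraMap_eq (algebraMap F L).injective x)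
        rw [h2, Polynomial.aeval_algHom_apply, minpoly.aeval, map_zero]
      have h3 : ((minpoly K (x : L)).map (algebraMap K L)).Splits := Normal.splits inferInstance _
      have h4 : i x ∈ (algebraMap L (AlgebraicClosure K)).range := by
        refine Polynomial.Splits.mem_range_of_isRoot (f := (minpoly K (x : L)).map (algebraMap K L))
          h3 (Polynomial.map_ne_zero (minpoly.ne_zero (Algebra.IsIntegral.isIntegral (x : L)))) ?_
        rw [Polynomial.IsRoot, Polynomial.map_map, ← IsScalarTower.algebraMap_eq,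
          Polynomial.eval_map_algebraMap]
        exact h1
      obtain ⟨y, hy⟩ := h4
      exact ⟨y, hy⟩
    choose f hf using hmem
    let τ : F →ₐ[K] L :=
      { toFun := f
        map_one' := hι (by rw [hf, map_one, map_one])
        map_mul' := fun x y => hι (by rw [hf, map_mul, map_mul, hf, hf])
        map_zero' := hι (by rw [hf, map_zero, map_zero])
        map_add' := fun x y => hι (by rw [hf, map_add, map_add, hf, hf])
        commutes' := fun c => hι (by rw [hf, i.commutes, ι.commutes]) }
    refine ⟨⟨τ, fun x => hι ?_⟩, ?_⟩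
    · rw [hg]
      change σ (ι (f x)) = ι (f x)
      rw [hf]
      exact congrArg (fun z : F →ₐ[K] AlgebraicClosure K => z x) hi
    · apply Subtype.ext
      apply AlgHom.ext
      intro x
      exact hf x

end

section
variable (F : Type) [Field F] [NumberField F]

/-- **The relation between extensions with at most one small prime.** -/
theorem small_relation (X₀ : ℕ) : ∃ (ι : Type) (_ : Fintype ι) (Y : ι → Ext F) (n : ι → ℤ),
    (∀ j, AtMost X₀ (Y j).F) ∧ ∀ σ : GK F, ∑ j, n j * (fixn F (Y j).F σ : ℤ) = 1 := by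
  classical
  obtain ⟨L, _, _, _, hG, -, S, n, hS, hsum⟩ := Pool.Agent.H46.SP.exists_relation F X₀
  refine ⟨S, inferInstance, fun j => ⟨j.1⟩, fun j => n j.1, fun j => ?_, fun σ => ?_⟩
  · intro w w' hw hw'
    exact Pool.Agent.H46.SP.Fam.unique (hS j.1 j.2) hw hw'
  · obtain ⟨g, hg⟩ := fixn_eq_emb (K := F) (L := L) σ
    rw [← hsum g, ← Finset.sum_coe_sort S fun F' => n F' *
      Pool.Agent.R433.MD.fx F'.fixingSubgroup g]
    refine Finset.sum_congr rfl fun j _ => ?_
    rw [Pool.Agent.R433.MD.fx_eq_emb]
    exact congrArg (fun t : ℕ => n j.1 * (t : ℤ)) (hg j.1)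

/-- an extension without automorphisms and with at most one small prime -/
theorem exists_rigid_small_above (X₀ : ℕ) : ∃ Y : Ext F, Rigid Y.F ∧ AtMost X₀ Y.F := by
  obtain ⟨ι, _, Y, n, hY, hrel⟩ := small_relation F X₀
  have hne : Nonempty ι := by
    by_contra h
    rw [not_nonempty_iff] at h
    have h1 := hrel 1
    rw [Finset.univ_eq_empty, Finset.sum_empty] at h1
    exact zero_ne_one h1
  obtain ⟨j⟩ := hne
  obtain ⟨p, hp1, hp⟩ := Nat.exists_infinite_primes (finrank ℚ (Y j).F + 2 + X₀)
  have hpf : Fact p.Prime := ⟨hp⟩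
  obtain ⟨ι', _, Z, m, -, hrig, hZ, hrel'⟩ :=
    exists_rigid_small_relation (Y j).F (hY j) p (by omega) (by omega)
  have hne : Nonempty ι' := by
    by_contra h
    rw [not_nonempty_iff] at h
    have h1 := hrel' 1
    rw [Finset.univ_eq_empty, Finset.sum_empty] at h1
    exact hp.ne_zero (by exact_mod_cast h1.symm)
  obtain ⟨k⟩ := hne
  let _ : Algebra F (Z k).F := ((algebraMap (Y j).F (Z k).F).comp (algebraMap F (Y j).F)).toAlgebra
  exact ⟨⟨(Z k).F⟩, hrig k, hZ k⟩

end

section
variable {K : Type} [Field K] [NumberField K]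
  {P : ∀ (F : Type) [Field F] [NumberField F] [Algebra K F], ℤ → Prop}

/-- **The law for the rigid fields with at most one small prime.** -/
theorem gen_rigid_small_law (hP : IsLaw P) (X₀ : ℕ)
    (h : ∀ (F : Type) [Field F] [NumberField F] [Algebra K F], Rigid F → AtMost X₀ F → P F 1)
    (F : Type) [Field F] [NumberField F] [Algebra K F] : P F 1 := by
  have key : ∀ (F' : Type) [Field F'] [NumberField F'] [Algebra K F'], AtMost X₀ F' → P F' 1 := by
    intro F' _ _ _ hF'
    refine Pool.Agent.Q5.VL.one_of_gcd hP F'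
      (D := {p : ℕ | p.Prime ∧ finrank ℚ F' + 1 < p ∧ X₀ < p}) ?_ ?_
    · intro g hg
      obtain ⟨p, hp1, hp⟩ := Nat.exists_infinite_primes (finrank ℚ F' + 2 + X₀)
      obtain ⟨q, hq1, hq⟩ := Nat.exists_infinite_primes (p + 1)
      have h1 : g ∣ p := hg p ⟨hp, by omega, by omega⟩
      have h2 : g ∣ q := hg q ⟨hq, by omega, by omega⟩
      have h3 : Nat.Coprime p q := (Nat.coprime_primes hp hq).2 (by omega)
      exact Nat.eq_one_of_dvd_coprimes h3 h1 h2
    · rintro p ⟨hp, hlt, hlt'⟩
      have hpf : Fact p.Prime := ⟨hp⟩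
      obtain ⟨ι, _, Y, nn, -, hrig, hsm, hrel⟩ := exists_rigid_small_relation F' hF' p hlt hlt'
      let _ : ∀ j, Algebra K (Y j).F := fun j =>
        ((algebraMap F' (Y j).F).comp (algebraMap K F')).toAlgebra
      have : ∀ j, IsScalarTower K F' (Y j).F := fun j =>
        IsScalarTower.of_algebraMap_eq fun x => rfl
      have h1 := hP.step F' ι Y nn p hrel 1 fun j => h (Y j).F (hrig j) (hsm j)
      rwa [mul_one] at h1
  obtain ⟨ι, _, Y, n, hY, hrel⟩ := small_relation F X₀
  let _ : ∀ j, Algebra K (Y j).F := fun j =>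
    ((algebraMap F (Y j).F).comp (algebraMap K F)).toAlgebra
  have : ∀ j, IsScalarTower K F (Y j).F := fun j =>
    IsScalarTower.of_algebraMap_eq fun x => rfl
  have h1 := hP.step F ι Y n 1 hrel 1 fun j => key (Y j).F (hY j)
  rwa [mul_one] at h1

end

end Pool.Agent.H26.K4
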