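import Pool.Agent.H26.Lib.R_pool_sql_team_seeded_3997aac3.Q5.RF.Rigid

/-! Radical extensions of large prime degree have at most one small prime above each small prime. -/

set_option autoImplicit false
set_option linter.unusedSectionVars false

namespace Pool.Agent.H26.K4

open NumberField Polynomial Module IsDedekindDomain
open Pool.Agent.Q5.RF (Rad minpoly_rad)

/-- at most one prime of norm at most `X` -/
def AtMost (X : ℕ) (F : Type) [Field F] [NumberField F] : Prop :=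
  ∀ w w' : HeightOneSpectrum (𝓞 F),
    Ideal.absNorm w.asIdeal ≤ X → Ideal.absNorm w'.asIdeal ≤ X → w = w'

section
variable {F Y : Type} [Field F] [NumberField F] [Field Y] [NumberField Y] [Algebra F Y]

theorem norm_under_le (w : HeightOneSpectrum (𝓞 Y)) :
    Ideal.absNorm (w.under (𝓞 F)).asIdeal ≤ Ideal.absNorm w.asIdeal := by
  have hfin : Finite (𝓞 Y ⧸ w.asIdeal) := Ideal.finiteQuotientOfFreeOfNeBot _ w.ne_bot
  rw [Ideal.absNorm_apply, Ideal.absNorm_apply, Submodule.cardQuot_apply, Submodule.cardQuot_apply]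
  let e : 𝓞 F ⧸ (w.under (𝓞 F)).asIdeal →+* 𝓞 Y ⧸ w.asIdeal :=
    Ideal.quotientMap w.asIdeal (algebraMap (𝓞 F) (𝓞 Y)) le_rfl
  have he : Function.Injective e := Ideal.quotientMap_injective
  exact Nat.card_le_card_of_injective e he

/-- `c ^ s` represents the root of `c` in the residue field -/
theorem sub_mem {p : ℕ} {c : 𝓞 F} {γ : 𝓞 Y} (hγ : γ ^ p = algebraMap (𝓞 F) (𝓞 Y) c)
    {w : HeightOneSpectrum (𝓞 Y)} (hc : c ∉ (w.under (𝓞 F)).asIdeal) {s t : ℕ}
    (hs : p * s = 1 + (Ideal.absNorm w.asIdeal - 1) * t) :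
    γ - algebraMap (𝓞 F) (𝓞 Y) (c ^ s) ∈ w.asIdeal := by
  classical
  have hfin : Finite (𝓞 Y ⧸ w.asIdeal) := Ideal.finiteQuotientOfFreeOfNeBot _ w.ne_bot
  have hmax : w.asIdeal.IsMaximal := w.isMaximal
  let _ : Field (𝓞 Y ⧸ w.asIdeal) := Ideal.Quotient.field _
  have := Fintype.ofFinite (𝓞 Y ⧸ w.asIdeal)
  have hq : Ideal.absNorm w.asIdeal = Fintype.card (𝓞 Y ⧸ w.asIdeal) := by
    rw [Ideal.absNorm_apply, Submodule.cardQuot_apply, Nat.card_eq_fintype_card]
  have hγw : Ideal.Quotient.mk w.asIdeal γ ≠ 0 := by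
    intro h
    rw [Ideal.Quotient.eq_zero_iff_mem] at h
    apply hc
    change algebraMap (𝓞 F) (𝓞 Y) c ∈ w.asIdeal
    rw [← hγ]
    have hp : p ≠ 0 := by
      rintro rfl
      rw [zero_mul] at hs
      omega
    exact Ideal.pow_mem_of_mem _ h _ (Nat.pos_of_ne_zero hp)
  rw [← Ideal.Quotient.eq_zero_iff_mem, map_sub, sub_eq_zero, map_pow (algebraMap (𝓞 F) (𝓞 Y)), ← hγ,
    ← pow_mul, hs, map_pow, pow_add, pow_one, pow_mul, hq,
    FiniteField.pow_card_sub_one_eq_one _ hγw, one_pow, mul_one]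

theorem atMost_rad {p X : ℕ} (hp : p.Prime) (hX : X < p) {c : 𝓞 F} {γ : 𝓞 Y} (h : Rad p c γ)
    (hF : AtMost X F)
    (hc : ∀ v : HeightOneSpectrum (𝓞 F), Ideal.absNorm v.asIdeal ≤ X → c ∉ v.asIdeal) :
    AtMost X Y := by
  classical
  intro w w' hw hw'
  by_contra hne
  have hu : w.under (𝓞 F) = w'.under (𝓞 F) :=
    hF _ _ ((norm_under_le w).trans hw) ((norm_under_le w').trans hw')
  have hcw := hc _ ((norm_under_le w).trans hw)
  have hcw' := hc _ ((norm_under_le w').trans hw')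
  have h2 : ∀ w : HeightOneSpectrum (𝓞 Y), 2 ≤ Ideal.absNorm w.asIdeal := fun w => by
    have h0 : Ideal.absNorm w.asIdeal ≠ 0 := by
      rw [Ne, Ideal.absNorm_eq_zero_iff]
      exact w.ne_bot
    have h1 : Ideal.absNorm w.asIdeal ≠ 1 := by
      rw [Ne, Ideal.absNorm_eq_one_iff]
      exact w.isPrime.ne_top
    omega
  have hcop : Nat.Coprime p ((Ideal.absNorm w.asIdeal - 1) * (Ideal.absNorm w'.asIdeal - 1)) := by
    have ha := h2 w
    have hb := h2 w'
    exact Nat.Coprime.mul_right (Nat.coprime_of_lt_prime (by omega) (by omega) hp)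
      (Nat.coprime_of_lt_prime (by omega) (by omega) hp)
  obtain ⟨s, t, hst⟩ : ∃ s t : ℕ, p * s =
      1 + ((Ideal.absNorm w.asIdeal - 1) * (Ideal.absNorm w'.asIdeal - 1)) * t := by
    set N := (Ideal.absNorm w.asIdeal - 1) * (Ideal.absNorm w'.asIdeal - 1) with hN
    have hN0 : 0 < N := by
      have ha := h2 w
      have hb := h2 w'
      exact Nat.mul_pos (by omega) (by omega)
    rcases Nat.lt_or_ge 1 N with h1N | h1N
    · obtain ⟨m, hm⟩ := Nat.exists_mul_mod_eq_one_of_coprime hcop h1N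
      refine ⟨m, p * m / N, ?_⟩
      have h3 := Nat.mod_add_div (p * m) N
      have hm' : p * m % N = 1 := hm.2
      rw [hm'] at h3
      exact h3.symm
    · have hN1 : N = 1 := by omega
      refine ⟨1, p - 1, ?_⟩
      have := hp.pos
      rw [hN1]
      omega
  have hm : γ - algebraMap (𝓞 F) (𝓞 Y) (c ^ s) ∈ w.asIdeal :=
    sub_mem h.pow hcw (t := (Ideal.absNorm w'.asIdeal - 1) * t) (by rw [hst]; ring)
  have hm' : γ - algebraMap (𝓞 F) (𝓞 Y) (c ^ s) ∈ w'.asIdeal :=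
    sub_mem h.pow hcw' (t := (Ideal.absNorm w.asIdeal - 1) * t) (by rw [hst]; ring)
  -- the conductor
  have hcond : aeval γ (derivative (minpoly (𝓞 F) γ)) ∈ conductor (𝓞 F) γ := by
    have h3 := conductor_mul_differentIdeal (𝓞 F) F Y γ h.gen
    have h4 : aeval γ (derivative (minpoly (𝓞 F) γ)) ∈
        Ideal.span {aeval γ (derivative (minpoly (𝓞 F) γ))} := Ideal.mem_span_singleton_self _
    rw [← h3] at h4
    exact Ideal.mul_le_left h4
  rw [minpoly_rad hp h.pow h.gen h.deg, derivative_sub, derivative_X_pow, derivative_C, sub_zero,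
    map_mul, map_pow, aeval_X, map_natCast, mem_conductor_iff] at hcond
  obtain ⟨y, hy, hy'⟩ : ∃ y, y ∈ w.asIdeal ∧ y ∉ w'.asIdeal := by
    by_contra hcon
    push Not at hcon
    exact hne (HeightOneSpectrum.ext (w.isMaximal.eq_of_le w'.isPrime.ne_top hcon))
  obtain ⟨g, hg⟩ : ∃ g : (𝓞 F)[X], aeval γ g = ((p : 𝓞 Y) * γ ^ (p - 1)) * y := by
    have h3 := hcond y
    rw [Algebra.adjoin_singleton_eq_range_aeval] at h3
    obtain ⟨g, hg⟩ := h3
    refine ⟨g, hg.trans ?_⟩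
    rw [map_natCast]
  have key : ∀ u : HeightOneSpectrum (𝓞 Y), γ - algebraMap (𝓞 F) (𝓞 Y) (c ^ s) ∈ u.asIdeal →
      (aeval γ g ∈ u.asIdeal ↔ g.eval (c ^ s) ∈ (u.under (𝓞 F)).asIdeal) := by
    intro u hu
    have h3 : aeval γ g - algebraMap (𝓞 F) (𝓞 Y) (g.eval (c ^ s)) ∈ u.asIdeal := by
      have h4 : algebraMap (𝓞 F) (𝓞 Y) (g.eval (c ^ s)) =
          aeval (algebraMap (𝓞 F) (𝓞 Y) (c ^ s)) g := by
        rw [aeval_algebraMap_apply, coe_aeval_eq_eval]
      rw [h4, aeval_def, aeval_def, ← eval_map, ← eval_map]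
      exact Ideal.mem_of_dvd _ (sub_dvd_eval_sub _ _ _) hu
    constructor
    · intro h4
      have h5 := u.asIdeal.sub_mem h4 h3
      rw [sub_sub_cancel] at h5
      exact h5
    · intro h4
      have h5 := u.asIdeal.add_mem h3 h4
      rwa [sub_add_cancel] at h5
  have h3 : aeval γ g ∈ w.asIdeal := by
    rw [hg]
    exact w.asIdeal.mul_mem_left _ hy
  rw [key w hm, hu, ← key w' hm', hg] at h3
  rcases w'.isPrime.mem_or_mem h3 with h4 | h4
  · rcases w'.isPrime.mem_or_mem h4 with h5 | h5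
    · -- `p` is prime to the residue characteristic
      have hfin : Finite (𝓞 Y ⧸ w'.asIdeal) := Ideal.finiteQuotientOfFreeOfNeBot _ w'.ne_bot
      have h6 : ((Ideal.absNorm w'.asIdeal : ℕ) : 𝓞 Y) ∈ w'.asIdeal := Ideal.absNorm_mem _
      have h7 : Nat.Coprime p (Ideal.absNorm w'.asIdeal) :=
        Nat.coprime_of_lt_prime (by have := h2 w'; omega) (by omega) hp
      have h8 : (1 : 𝓞 Y) ∈ w'.asIdeal := by
        have h9 := Nat.gcd_eq_gcd_ab p (Ideal.absNorm w'.asIdeal)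
        rw [h7.gcd_eq_one] at h9
        have h10 : (1 : 𝓞 Y) = (p : 𝓞 Y) * ((Nat.gcdA p (Ideal.absNorm w'.asIdeal) : ℤ) : 𝓞 Y) +
            ((Ideal.absNorm w'.asIdeal : ℕ) : 𝓞 Y) *
              ((Nat.gcdB p (Ideal.absNorm w'.asIdeal) : ℤ) : 𝓞 Y) := by
          exact_mod_cast congrArg (fun z : ℤ => (z : 𝓞 Y)) h9
        rw [h10]
        exact w'.asIdeal.add_mem (w'.asIdeal.mul_mem_right _ h5) (w'.asIdeal.mul_mem_right _ h6)
      exact w'.isPrime.ne_top ((Ideal.eq_top_iff_one _).2 h8)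
    · have h6 := w'.isPrime.mem_of_pow_mem _ h5
      apply hcw'
      change algebraMap (𝓞 F) (𝓞 Y) c ∈ w'.asIdeal
      rw [← h.pow]
      exact Ideal.pow_mem_of_mem _ h6 _ hp.pos
  · exact hy' h4

end

end Pool.Agent.H26.K4
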