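import Pool.Agent.H26.Lib.R_pool_sql_team_seeded_3997aac3.Q5.RF.Law
import Pool.Agent.H26.K4.Small

/-! Relations between rigid extensions with at most one small prime. -/

set_option autoImplicit false
set_option linter.unusedSectionVars false

namespace Pool.Agent.H26.K4

open NumberField Polynomial Module IsDedekindDomain Pool.Agent.W353.NF Pool.Agent.W401.Cheb
  Pool.Agent.Q5.BR Pool.Agent.Q5.RF
open Pool.Agent.Q5.VL (IsLaw)

section
variable {K F : Type} [Field K] [NumberField K] [Field F] [NumberField F] [Algebra K F]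

variable (K F) in
/-- **Two elements with prime divisors that divide none of the other conjugates**, prime to the primes
of a finite set. -/
theorem exists_ab' (T : Finset (HeightOneSpectrum (𝓞 F))) {p : ℕ} (hp : p ≠ 0) :
    ∃ (a b : 𝓞 F) (P Q : Ideal (𝓞 F)), P.IsMaximal ∧
    Q.IsMaximal ∧ (p : 𝓞 F) ∉ P ∧ (p : 𝓞 F) ∉ Q ∧
    a ∈ P ∧ a ∉ P ^ 2 ∧ b ∈ Q ∧ b ∉ Q ^ 2 ∧
    (∀ τ : F ≃ₐ[K] F, τ ≠ 1 → ti τ a ∉ P) ∧ (∀ τ : F ≃ₐ[K] F, ti τ b ∉ P) ∧
    (∀ τ : F ≃ₐ[K] F, τ ≠ 1 → ti τ b ∉ Q) ∧ (∀ τ : F ≃ₐ[K] F, ti τ a ∉ Q) ∧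
    (∀ v ∈ T, a ∉ v.asIdeal) ∧ ∀ v ∈ T, b ∉ v.asIdeal := by
  classical
  have hfd : FiniteDimensional K F := by
    have : IsScalarTower ℚ K F := inferInstance
    exact FiniteDimensional.right ℚ K F
  have hfin : Finite (F ≃ₐ[K] F) := inferInstance
  have hft := Fintype.ofFinite (F ≃ₐ[K] F)
  obtain ⟨x, hx0, hx⟩ := exists_gen K F
  let N : ℕ := ∏ v ∈ T, Ideal.absNorm v.asIdeal
  have hN0 : N ≠ 0 := Finset.prod_ne_zero_iff.2 fun v _ => by
    rw [Ne, Ideal.absNorm_eq_zero_iff]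
    exact v.ne_bot
  have hNv : ∀ v ∈ T, (N : 𝓞 F) ∈ v.asIdeal := by
    intro v hv
    have h1 : N = Ideal.absNorm v.asIdeal * ∏ u ∈ T.erase v, Ideal.absNorm u.asIdeal :=
      (Finset.mul_prod_erase T _ hv).symm
    rw [h1, Nat.cast_mul]
    exact v.asIdeal.mul_mem_right _ (Ideal.absNorm_mem _)
  let D : 𝓞 F := (p : 𝓞 F) * (N : 𝓞 F) * ∏ τ : {τ : F ≃ₐ[K] F // τ ≠ 1}, (ti τ.1 x - x)
  have hp' : (p : 𝓞 F) ≠ 0 := by exact_mod_cast hp
  have hN' : (N : 𝓞 F) ≠ 0 := by exact_mod_cast hN0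
  have hD0 : D ≠ 0 := mul_ne_zero (mul_ne_zero hp' hN')
    (Finset.prod_ne_zero_iff.2 fun τ _ => sub_ne_zero.2 (hx τ.1 τ.2))
  have hpD : ∀ P : Ideal (𝓞 F), D ∉ P → (p : 𝓞 F) ∉ P := fun P h h1 =>
    h (P.mul_mem_right _ (P.mul_mem_right _ h1))
  have hND : ∀ P : Ideal (𝓞 F), D ∉ P → ∀ v : T, P ≠ (v : HeightOneSpectrum (𝓞 F)).asIdeal := by
    intro P h v h1
    apply h
    rw [h1]
    exact Ideal.mul_mem_right _ _ (Ideal.mul_mem_left _ _ (hNv v v.2))
  have hτD : ∀ P : Ideal (𝓞 F), D ∉ P → ∀ τ : F ≃ₐ[K] F, τ ≠ 1 → ti τ x - x ∉ P := by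
    intro P h τ hτ h1
    apply h
    refine P.mul_mem_left _ ?_
    rw [← Finset.mul_prod_erase Finset.univ _ (Finset.mem_univ (⟨τ, hτ⟩ : {τ : F ≃ₐ[K] F // τ ≠ 1}))]
    exact P.mul_mem_right _ h1
  have hne : ∀ P : Ideal (𝓞 F), D ∉ P → (∃ n : ℕ, x - (n : 𝓞 F) ∈ P) → ∀ τ : F ≃ₐ[K] F, τ ≠ 1 →
      P ≠ P.comap (ti τ : 𝓞 F →+* 𝓞 F) := by
    rintro P hDP ⟨n, hn⟩ τ hτ h
    apply hτD P hDP τ hτ
    have h1 : x - (n : 𝓞 F) ∈ P.comap (ti τ : 𝓞 F →+* 𝓞 F) := by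
      rw [← h]
      exact hn
    rw [Ideal.mem_comap] at h1
    have h2 : (ti τ : 𝓞 F →+* 𝓞 F) (x - (n : 𝓞 F)) = ti τ x - (n : 𝓞 F) := by
      rw [map_sub, map_natCast]
      rfl
    rw [h2] at h1
    have h3 := P.sub_mem h1 hn
    rwa [sub_sub_sub_cancel_right] at h3
  obtain ⟨P, hP, hDP, hnP⟩ := exists_prime hx0 hD0
  have hP0 := ne_bot_max hP
  let l : ℕ := Ideal.absNorm P
  have hl0 : l ≠ 0 := by
    rw [Ne, Ideal.absNorm_eq_zero_iff]
    exact hP0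
  have hlP : (l : 𝓞 F) ∈ P := Ideal.absNorm_mem P
  obtain ⟨Q, hQ, hDQ, hnQ⟩ := exists_prime hx0 (D := D * (l : 𝓞 F))
    (mul_ne_zero hD0 (by exact_mod_cast hl0))
  have hQ0 := ne_bot_max hQ
  have hDQ' : D ∉ Q := fun h => hDQ (Q.mul_mem_right _ h)
  have hlQ : (l : 𝓞 F) ∉ Q := fun h => hDQ (Q.mul_mem_left _ h)
  have hPQ : ∀ τ : F ≃ₐ[K] F, P ≠ Q.comap (ti τ : 𝓞 F →+* 𝓞 F) := by
    intro τ h
    rw [h, Ideal.mem_comap, map_natCast] at hlP
    exact hlQ hlP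
  have hQP : ∀ τ : F ≃ₐ[K] F, Q ≠ P.comap (ti τ : 𝓞 F →+* 𝓞 F) := by
    intro τ h
    apply hlQ
    rw [h, Ideal.mem_comap, map_natCast]
    exact hlP
  obtain ⟨a, haP, haP2, ha⟩ := exists_unif hP hP0
    (J := fun i : ({τ : F ≃ₐ[K] F // τ ≠ 1} ⊕ (F ≃ₐ[K] F)) ⊕ T => Sum.elim (Sum.elim
      (fun τ => P.comap (ti τ.1 : 𝓞 F →+* 𝓞 F)) (fun τ => Q.comap (ti τ : 𝓞 F →+* 𝓞 F)))
      (fun v => (v : HeightOneSpectrum (𝓞 F)).asIdeal) i) (by
      rintro ((τ | τ) | v)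
      · exact comap_max hP _
      · exact comap_max hQ _
      · exact (v : HeightOneSpectrum (𝓞 F)).isMaximal) (by
      rintro ((τ | τ) | v)
      · exact hne P hDP hnP τ.1 τ.2
      · exact hPQ τ
      · exact hND P hDP v)
  obtain ⟨b, hbQ, hbQ2, hb⟩ := exists_unif hQ hQ0
    (J := fun i : ({τ : F ≃ₐ[K] F // τ ≠ 1} ⊕ (F ≃ₐ[K] F)) ⊕ T => Sum.elim (Sum.elim
      (fun τ => Q.comap (ti τ.1 : 𝓞 F →+* 𝓞 F)) (fun τ => P.comap (ti τ : 𝓞 F →+* 𝓞 F)))
      (fun v => (v : HeightOneSpectrum (𝓞 F)).asIdeal) i) (by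
      rintro ((τ | τ) | v)
      · exact comap_max hQ _
      · exact comap_max hP _
      · exact (v : HeightOneSpectrum (𝓞 F)).isMaximal) (by
      rintro ((τ | τ) | v)
      · exact hne Q hDQ' hnQ τ.1 τ.2
      · exact hQP τ
      · exact hND Q hDQ' v)
  exact ⟨a, b, P, Q, hP, hQ, hpD P hDP, hpD Q hDQ', haP, haP2, hbQ, hbQ2,
    fun τ hτ h => ha (Sum.inl (Sum.inl ⟨τ, hτ⟩)) h, fun τ h => hb (Sum.inl (Sum.inr τ)) h,
    fun τ hτ h => hb (Sum.inl (Sum.inl ⟨τ, hτ⟩)) h, fun τ h => ha (Sum.inl (Sum.inr τ)) h,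
    fun v hv h => ha (Sum.inr ⟨v, hv⟩) h, fun v hv h => hb (Sum.inr ⟨v, hv⟩) h⟩

end

section
variable {F : Type} [Field F] [NumberField F]

theorem finite_small (X : ℕ) :
    {v : HeightOneSpectrum (𝓞 F) | Ideal.absNorm v.asIdeal ≤ X}.Finite := by
  refine Set.Finite.of_finite_image (f := fun v : HeightOneSpectrum (𝓞 F) => v.asIdeal)
    ((Ideal.finite_setOfPred_absNorm_le X).subset ?_) ?_
  · rintro _ ⟨v, hv, rfl⟩
    exact hv
  · intro v _ v' _ h
    exact HeightOneSpectrum.ext h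

variable (F) in
/-- **The relation between rigid extensions with at most one small prime.** -/
theorem exists_rigid_small_relation {X₀ : ℕ} (hF : AtMost X₀ F) (p : ℕ) [hp : Fact p.Prime]
    (hlt : finrank ℚ F + 1 < p) (hX₀ : X₀ < p) :
    ∃ (ι : Type) (_ : Fintype ι) (X : ι → Ext F) (n : ι → ℤ),
      (∀ j, Module.finrank F (X j).F = p ∨ Module.finrank F (X j).F = p ^ 2) ∧
      (∀ j, Rigid (X j).F) ∧ (∀ j, AtMost X₀ (X j).F) ∧
      ∀ σ : GK F, ∑ j, n j * (fixn F (X j).F σ : ℤ) = p := by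
  classical
  obtain ⟨a, b, P, Q, hP, hQ, hpP, hpQ, haP, haP2, hbQ, hbQ2, hcaP, hcbP, hcbQ, hcaQ, haT, hbT⟩ :=
    exists_ab' ℚ F (finite_small (F := F) X₀).toFinset (p := p) hp.out.ne_zero
  replace haT : ∀ v : HeightOneSpectrum (𝓞 F), Ideal.absNorm v.asIdeal ≤ X₀ → a ∉ v.asIdeal :=
    fun v hv => haT v ((Set.Finite.mem_toFinset _).2 hv)
  replace hbT : ∀ v : HeightOneSpectrum (𝓞 F), Ideal.absNorm v.asIdeal ≤ X₀ → b ∉ v.asIdeal :=
    fun v hv => hbT v ((Set.Finite.mem_toFinset _).2 hv)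
  have hb' : Irreducible (pol p (b : F)) := X_pow_sub_C_irreducible_of_prime hp.out
    (not_pow hp.out.two_le hQ.isPrime hbQ hbQ2)
  let _ : Fact (Irreducible (pol p (b : F))) := ⟨hb'⟩
  let L := AdjoinRoot (pol p (b : F))
  let iL : NumberField L := numberField_rd
  obtain ⟨β, hβ⟩ := rad_adjoin hp.out b
  have hbP : b ∉ P := hcbP 1
  let a' : 𝓞 L := algebraMap (𝓞 F) (𝓞 L) a
  have ha' : Irreducible (pol p (a' : L)) := by
    obtain ⟨Q', hQ', -, h1, h2⟩ := hβ.step hp.out hP hpP hbP haP haP2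
    exact X_pow_sub_C_irreducible_of_prime hp.out (not_pow hp.out.two_le hQ'.isPrime h1 h2)
  let _ : Fact (Irreducible (pol p (a' : L))) := ⟨ha'⟩
  let M := AdjoinRoot (pol p (a' : L))
  let iM : NumberField M := numberField_rd
  obtain ⟨α, hα⟩ := rad_adjoin hp.out a'
  have hbi : ∀ (i : ℕ) (τ : F ≃ₐ[ℚ] F), (ti τ b) ^ i ∉ P := fun i τ h =>
    hcbP τ (hP.isPrime.mem_of_pow_mem i h)
  have hirr : ∀ i : ℕ, Irreducible (pol p ((a * b ^ i : 𝓞 F) : F)) := fun i =>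
    X_pow_sub_C_irreducible_of_prime hp.out (not_pow hp.out.two_le hP.isPrime
      (P.mul_mem_right _ haP) (mul_unif hP haP2 (hbi i 1)))
  have hfac : ∀ i : ℕ, Fact (Irreducible (pol p ((a * b ^ i : 𝓞 F) : F))) := fun i => ⟨hirr i⟩
  have hnf : ∀ i : ℕ, NumberField (AdjoinRoot (pol p ((a * b ^ i : 𝓞 F) : F))) := fun i =>
    numberField_rd
  let X : Fin p ⊕ Bool → Ext F := Sum.elim
    (fun i => @Ext.mk F _ _ (AdjoinRoot (pol p ((a * b ^ (i : ℕ) : 𝓞 F) : F))) _ (hnf i) _)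
    (fun t => if t then @Ext.mk F _ _ L _ iL _ else @Ext.mk F _ _ M _ iM _)
  let n : Fin p ⊕ Bool → ℤ := Sum.elim (fun _ => 1) (fun t => if t then 1 else -1)
  have hL : AtMost X₀ L := atMost_rad hp.out hX₀ hβ hF hbT
  refine ⟨Fin p ⊕ Bool, inferInstance, X, n, ?_, ?_, ?_, ?_⟩
  · rintro (i | t)
    · left
      exact finrank_rd hp.out.pos _
    · cases t with
      | true =>
        left
        exact finrank_rd hp.out.pos _
      | false =>
        right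
        change Module.finrank F M = p ^ 2
        have h1 : Module.Finite F L := finite_rd hp.out.pos _
        have h2 : Module.Finite L M := finite_rd hp.out.pos _
        rw [← Module.finrank_mul_finrank F L M, sq]
        congr 1
        · exact finrank_rd hp.out.pos _
        · exact finrank_rd hp.out.pos _
  · rintro (i | t)
    · have := hnf i
      have := hfac i
      obtain ⟨γ, hγ⟩ := rad_adjoin hp.out (a * b ^ (i : ℕ))
      refine rigid_one hp.out hlt hγ hP hpP (P.mul_mem_right _ haP)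
        (mul_unif hP haP2 (hbi i 1)) fun τ hτ h => ?_
      rw [map_mul, map_pow] at h
      rcases hP.isPrime.mem_or_mem h with h1 | h1
      · exact hcaP τ hτ h1
      · exact hbi i τ h1
    · cases t with
      | true => exact rigid_one hp.out hlt hβ hQ hpQ hbQ hbQ2 hcbQ
      | false =>
        change Rigid M
        exact rigid_two hp.out hlt hβ hα hP hpP haP haP2 hcaP hcbP
  · rintro (i | t)
    · have := hnf i
      have := hfac i
      obtain ⟨γ, hγ⟩ := rad_adjoin hp.out (a * b ^ (i : ℕ))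
      refine atMost_rad hp.out hX₀ hγ hF fun v hv h => ?_
      rcases v.isPrime.mem_or_mem h with h1 | h1
      · exact haT v hv h1
      · exact hbT v hv (v.isPrime.mem_of_pow_mem _ h1)
    · cases t with
      | true => exact hL
      | false =>
        change AtMost X₀ M
        exact atMost_rad hp.out hX₀ hα hL fun w hw h => haT _ ((norm_under_le (F := F) w).trans hw) h
  · intro σ
    rw [Fintype.sum_sum_type, Fintype.sum_bool]
    have hci : ∀ i : ℕ, ((a * b ^ i : 𝓞 F) : F) = (a : F) * (b : F) ^ i := fun i => by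
      change algebraMap (𝓞 F) F (a * b ^ i) = _
      rw [map_mul, map_pow]
    have h1 : ∀ i : Fin p, n (Sum.inl i) * (fixn F (X (Sum.inl i)).F σ : ℤ) =
        (Rt p ((a : F) * (b : F) ^ (i : ℕ)) σ : ℤ) := by
      intro i
      have hf := hfac i
      have h := fixn_rd (K := F) (L := F) (p := p) (c := ((a * b ^ (i : ℕ) : 𝓞 F) : F))
        ((a * b ^ (i : ℕ) : 𝓞 F) : F) rfl (hnf i) σ
      rw [Pool.Agent.Q5.BR.fixn_self, one_mul] at h
      change (1 : ℤ) * ((fixn F (AdjoinRoot (pol p ((a * b ^ (i : ℕ) : 𝓞 F) : F))) σ : ℕ) : ℤ) = _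
      rw [h, one_mul, hci]
    have h2 : fixn F L σ = Rt p (b : F) σ := by
      have h := fixn_rd (K := F) (L := F) (p := p) (c := (b : F)) (b : F) rfl iL σ
      rwa [Pool.Agent.Q5.BR.fixn_self, one_mul] at h
    have h3 : fixn F M σ = Rt p (b : F) σ * Rt p (a : F) σ := by
      have h := fixn_rd (K := F) (L := L) (p := p) (c := (a' : L)) (a : F) rfl iM σ
      rwa [h2] at h
    have h4 : n (Sum.inr true) * (fixn F (X (Sum.inr true)).F σ : ℤ) = (Rt p (b : F) σ : ℤ) := by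
      change (1 : ℤ) * ((fixn F L σ : ℕ) : ℤ) = _
      rw [h2, one_mul]
    have h5 : n (Sum.inr false) * (fixn F (X (Sum.inr false)).F σ : ℤ) =
        -((Rt p (b : F) σ : ℤ) * (Rt p (a : F) σ : ℤ)) := by
      change (-1 : ℤ) * ((fixn F M σ : ℕ) : ℤ) = _
      rw [h3]
      push_cast
      ring
    rw [Finset.sum_congr rfl fun i _ => h1 i, h4, h5]
    have haF : (a : F) ≠ 0 := fun h0 => haP2 (by
      have h6 : a = 0 := RingOfIntegers.ext h0
      rw [h6]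
      exact Submodule.zero_mem _)
    have hbF : (b : F) ≠ 0 := fun h0 => hbQ2 (by
      have h6 : b = 0 := RingOfIntegers.ext h0
      rw [h6]
      exact Submodule.zero_mem _)
    have h6 := congrArg (fun z : ℕ => (z : ℤ)) (Rt_rel (p := p) haF hbF σ)
    simp only [Nat.cast_add, Nat.cast_sum, Nat.cast_mul] at h6
    rw [Finset.sum_range] at h6
    linear_combination h6

end

end Pool.Agent.H26.K4
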