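import Pool.Agent.H26.K4.Gen

/-! Relations with coefficient `1` between fields without automorphisms and with at most one small
prime. -/

set_option autoImplicit false
set_option linter.unusedSectionVars false

namespace Pool.Agent.H26.K4

open NumberField Module IsDedekindDomain Pool.Agent.W353.NF Pool.Agent.W401.Cheb
  Pool.Agent.Q5.BR
open Pool.Agent.Q5.RF (Rigid)
open Pool.Agent.Q5.VL (IsLaw)

section
variable {F Y : Type} [Field F] [NumberField F] [Field Y] [NumberField Y] [Algebra F Y]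

/-- the embeddings over a fixed embedding -/
theorem fiber (σ : GK F) (j : Y →ₐ[F] AlgebraicClosure F) (hj : act F Y σ j = j) :
    ∃ τ : GK Y, ∀ (Z : Type) [Field Z] [NumberField Z] [Algebra F Z] [Algebra Y Z]
      [IsScalarTower F Y Z],
      Nat.card {i : Z →ₐ[F] AlgebraicClosure F //
        act F Z σ i = i ∧ i.comp (IsScalarTower.toAlgHom F Y Z) = j} = fixn Y Z τ := by
  classical
  let _ : Algebra Y (AlgebraicClosure F) := j.toRingHom.toAlgebra
  have htower : IsScalarTower F Y (AlgebraicClosure F) :=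
    IsScalarTower.of_algebraMap_eq fun x => (j.commutes x).symm
  have hclo : IsAlgClosure Y (AlgebraicClosure F) :=
    { isAlgClosed := inferInstance
      isAlgebraic := Algebra.IsAlgebraic.tower_top (K := F) Y }
  let e : AlgebraicClosure F ≃ₐ[Y] AlgebraicClosure Y :=
    IsAlgClosure.equiv Y (AlgebraicClosure F) (AlgebraicClosure Y)
  have hσj : ∀ y : Y, σ (algebraMap Y (AlgebraicClosure F) y) =
      algebraMap Y (AlgebraicClosure F) y := fun y =>
    congrArg (fun z : Y →ₐ[F] AlgebraicClosure F => z y) hj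
  let σ' : AlgebraicClosure F ≃ₐ[Y] AlgebraicClosure F :=
    { (σ : AlgebraicClosure F ≃+* AlgebraicClosure F) with commutes' := hσj }
  have hσ' : ∀ x, σ' x = σ x := fun x => rfl
  let τ : GK Y := (e.symm.trans σ').trans e
  have hτ : ∀ x, τ (e x) = e (σ x) := by
    intro x
    change e (σ' (e.symm (e x))) = e (σ x)
    rw [AlgEquiv.symm_apply_apply, hσ']
  refine ⟨τ, ?_⟩
  intro Z _ _ _ _ _
  unfold fixn
  have hcomm : ∀ i : Z →ₐ[F] AlgebraicClosure F, i.comp (IsScalarTower.toAlgHom F Y Z) = j →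
      ∀ y : Y, i (algebraMap Y Z y) = algebraMap Y (AlgebraicClosure F) y := fun i hi y =>
    congrArg (fun z : Y →ₐ[F] AlgebraicClosure F => z y) hi
  let f : (i : {i : Z →ₐ[F] AlgebraicClosure F //
        act F Z σ i = i ∧ i.comp (IsScalarTower.toAlgHom F Y Z) = j}) →
      Z →ₐ[Y] AlgebraicClosure Y := fun i =>
    (e : AlgebraicClosure F →ₐ[Y] AlgebraicClosure Y).comp
      { (i.1 : Z →+* AlgebraicClosure F) with commutes' := hcomm i.1 i.2.2 }
  have hf : ∀ i x, f i x = e (i.1 x) := fun i x => rfl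
  refine Nat.card_congr (Equiv.ofBijective (fun i => ⟨f i, ?_⟩) ⟨?_, ?_⟩)
  · rw [act_apply]
    apply AlgHom.ext
    intro x
    change τ (f i x) = f i x
    rw [hf, hτ]
    congr 1
    exact congrArg (fun z : Z →ₐ[F] AlgebraicClosure F => z x) i.2.1
  · intro i i' h
    apply Subtype.ext
    apply AlgHom.ext
    intro x
    have h1 : f i x = f i' x := congrArg (fun z => z.1 x) h
    rw [hf, hf] at h1
    exact e.injective h1
  · rintro ⟨i, hi⟩
    let i₀ : Z →ₐ[Y] AlgebraicClosure F := (e.symm : AlgebraicClosure Y →ₐ[Y] AlgebraicClosure F).comp i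
    let i₁ : Z →ₐ[F] AlgebraicClosure F := i₀.restrictScalars F
    have hi₁ : ∀ x, e (i₁ x) = i x := fun x => e.apply_symm_apply (i x)
    refine ⟨⟨i₁, ?_, ?_⟩, ?_⟩
    · rw [act_apply]
      apply AlgHom.ext
      intro x
      change σ (i₁ x) = i₁ x
      apply e.injective
      rw [← hτ, hi₁]
      exact congrArg (fun z : Z →ₐ[Y] AlgebraicClosure Y => z x) hi
    · apply AlgHom.ext
      intro y
      exact i₀.commutes y
    · apply Subtype.ext
      apply AlgHom.ext
      intro x
      exact hi₁ x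

/-- **Embeddings in towers.** -/
theorem fixn_tower (σ : GK F) : ∃ τ : {j : Y →ₐ[F] AlgebraicClosure F // act F Y σ j = j} → GK Y,
    ∀ (Z : Type) [Field Z] [NumberField Z] [Algebra F Z] [Algebra Y Z] [IsScalarTower F Y Z]
      [Fintype {j : Y →ₐ[F] AlgebraicClosure F // act F Y σ j = j}],
      fixn F Z σ = ∑ j, fixn Y Z (τ j) := by
  classical
  choose τ hτ using fun j : {j : Y →ₐ[F] AlgebraicClosure F // act F Y σ j = j} =>
    fiber σ j.1 j.2
  refine ⟨τ, ?_⟩
  intro Z _ _ _ _ _ _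
  have hfd : FiniteDimensional F Z := by
    have : IsScalarTower ℚ F Z := inferInstance
    exact FiniteDimensional.right ℚ F Z
  have hfin : Finite (Z →ₐ[F] AlgebraicClosure F) := inferInstance
  have := Fintype.ofFinite (Z →ₐ[F] AlgebraicClosure F)
  rw [Finset.sum_congr rfl fun j _ => (hτ j Z).symm]
  unfold fixn
  rw [← Nat.card_sigma]
  refine Nat.card_congr
    { toFun := fun i => ⟨⟨i.1.comp (IsScalarTower.toAlgHom F Y Z), ?_⟩, ⟨i.1, i.2, rfl⟩⟩
      invFun := fun i => ⟨i.2.1, i.2.2.1⟩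
      left_inv := fun i => rfl
      right_inv := ?_ }
  · rw [act_apply]
    apply AlgHom.ext
    intro y
    exact congrArg (fun z : Z →ₐ[F] AlgebraicClosure F => z (algebraMap Y Z y)) i.2
  · rintro ⟨⟨j, hj⟩, ⟨i, hi, h⟩⟩
    change i.comp (IsScalarTower.toAlgHom F Y Z) = j at h
    subst h
    rfl

end

/-- relations with coefficient `t` between the rigid extensions with at most one small prime -/
def RelP (X₀ : ℕ) (F : Type) [Field F] [NumberField F] (t : ℤ) : Prop :=
  ∃ (ι : Type) (_ : Fintype ι) (Y : ι → Ext F) (n : ι → ℤ), (∀ j, Rigid (Y j).F) ∧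
    (∀ j, AtMost X₀ (Y j).F) ∧ ∀ σ : GK F, ∑ j, n j * (fixn F (Y j).F σ : ℤ) = t

theorem relP_isLaw (K : Type) [Field K] [NumberField K] (X₀ : ℕ) :
    IsLaw (K := K) (fun F _ _ _ t => RelP X₀ F t) where
  zero := fun F _ _ _ => ⟨Empty, inferInstance, fun j => j.elim, fun _ => 0, fun j => j.elim,
    fun j => j.elim, fun σ => by simp⟩
  add := by
    rintro F _ _ _ t u ⟨ι, _, Y, n, h1, h2, h3⟩ ⟨ι', _, Y', n', h1', h2', h3'⟩
    refine ⟨ι ⊕ ι', inferInstance, Sum.elim Y Y', Sum.elim n n', ?_, ?_, fun σ => ?_⟩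
    · rintro (j | j)
      · exact h1 j
      · exact h1' j
    · rintro (j | j)
      · exact h2 j
      · exact h2' j
    · rw [Fintype.sum_sum_type, ← h3 σ, ← h3' σ]
      rfl
  neg := by
    rintro F _ _ _ t ⟨ι, _, Y, n, h1, h2, h3⟩
    refine ⟨ι, inferInstance, Y, fun j => - n j, h1, h2, fun σ => ?_⟩
    rw [← h3 σ, ← Finset.sum_neg_distrib]
    exact Finset.sum_congr rfl fun j _ => neg_mul _ _
  step := by
    intro F _ _ _ ι _ Y _ _ n m hrel t h
    classical
    choose κ iκ Z a h1 h2 h3 using h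
    let _ : ∀ j k, Algebra F (Z j k).F := fun j k =>
      ((algebraMap (Y j).F (Z j k).F).comp (algebraMap F (Y j).F)).toAlgebra
    have htow : ∀ j k, IsScalarTower F (Y j).F (Z j k).F := fun j k =>
      IsScalarTower.of_algebraMap_eq fun x => rfl
    refine ⟨Σ j, κ j, inferInstance, fun jk => Ext.mk (Z jk.1 jk.2).F,
      fun jk => n jk.1 * a jk.1 jk.2, fun jk => h1 jk.1 jk.2, fun jk => h2 jk.1 jk.2, fun σ => ?_⟩
    rw [Fintype.sum_sigma, ← hrel σ, Finset.sum_mul]
    refine Finset.sum_congr rfl fun j _ => ?_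
    have hfd : FiniteDimensional F (Y j).F := by
      have : IsScalarTower ℚ F (Y j).F := inferInstance
      exact FiniteDimensional.right ℚ F (Y j).F
    have hfin : Finite ((Y j).F →ₐ[F] AlgebraicClosure F) := inferInstance
    have := Fintype.ofFinite {i : (Y j).F →ₐ[F] AlgebraicClosure F // act F (Y j).F σ i = i}
    obtain ⟨τ, hτ⟩ := fixn_tower (F := F) (Y := (Y j).F) σ
    have e1 : ∀ k : κ j, (fixn F (Z j k).F σ : ℤ) = ∑ i, (fixn (Y j).F (Z j k).F (τ i) : ℤ) := by
      intro k
      rw [hτ (Z j k).F]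
      push_cast
      rfl
    calc ∑ k : κ j, n j * a j k * (fixn F (Z j k).F σ : ℤ)
        = n j * ∑ i, ∑ k : κ j, a j k * (fixn (Y j).F (Z j k).F (τ i) : ℤ) := by
          rw [Finset.sum_comm, Finset.mul_sum]
          refine Finset.sum_congr rfl fun k _ => ?_
          rw [e1, ← Finset.mul_sum, mul_assoc]
      _ = n j * (fixn F (Y j).F σ : ℤ) * t := by
          rw [Finset.sum_congr rfl fun i _ => h3 j (τ i), Finset.sum_const, nsmul_eq_mul,
            Finset.card_univ]
          unfold fixn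
          rw [← Nat.card_eq_fintype_card]
          ring

/-- **The relation.** -/
theorem rigid_small_relation (F : Type) [Field F] [NumberField F] (X₀ : ℕ) : RelP X₀ F 1 := by
  refine gen_rigid_small_law (K := ℚ) (P := fun F _ _ _ t => RelP X₀ F t) (relP_isLaw ℚ X₀) X₀ ?_ F
  intro F' _ _ _ hr hs
  refine ⟨Unit, inferInstance, fun _ => ⟨F'⟩, fun _ => 1, fun _ => hr, fun _ => hs, fun σ => ?_⟩
  rw [Fintype.sum_unique]
  change (1 : ℤ) * ((fixn F' F' σ : ℕ) : ℤ) = 1
  rw [Pool.Agent.Q5.BR.fixn_self]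
  norm_num

end Pool.Agent.H26.K4
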